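import Pool.Agent.Q43.MT.Core

/-!
# The multiplicity of a point of the Monster tower is well defined

Question Q1 of MP_32880b_ag, in all dimensions and at all levels: for every point `p` of
`P^k(n)` all curve germs in `Germ(p)` have the same multiplicity.

## The description of the tower by its standard (Kumpera-Rubin) charts

Near a point `q` of `P^j(n)` suppose given functions `y_1, ..., y_n` whose differentials form a
coframe of the distribution `Δ_j` (for `j = 0` the coordinates of `ℂ^n`).  A line `ℓ` in `Δ_j` on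
which `dy_c ≠ 0` (`c` is the pivot) is given by the `n - 1` ratios `dy_i / dy_c`, `i ≠ c`, which
are the fibre coordinates of `π_{j+1,j}`.  Put `y'_i = dy_i / dy_c` for `i ≠ c` and `y'_c = y_c`.
As `Δ_{j+1} = dπ^{-1}(ℓ)`, the differentials `dy'_1, ..., dy'_n` form a coframe of `Δ_{j+1}`.  So
`P^k(n)` is covered by charts indexed by the sequences of `k` pivots, a point in such a chart is
given by its coordinates `y^{(j)}_i`, `0 ≤ j ≤ k`, with `y^{(j+1)}_c = y^{(j)}_c` for the pivot
`c` of the step `j → j + 1` (`MonsterPoint`), and `Δ_k(p)` is `ℂ^n` with the coordinates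
`dy^{(k)}_1, ..., dy^{(k)}_n`.

Let `c` be the pivot of the step `j → j + 1`.  The tangent space of the fibre `F_{j+1}` of
`π_{j+1,j}` is the hyperplane `dy^{(j+1)}_c = 0` of `Δ_{j+1}`.  A line in it has a pivot
`c' ≠ c` and satisfies `y^{(j+2)}_c = dy^{(j+1)}_c / dy^{(j+1)}_{c'} = 0`, the first prolongation
of `F_{j+1}` is given inside the preimage of `F_{j+1}` by this equation, its distribution is the
hyperplane `dy^{(j+2)}_c = 0` of `Δ_{j+2}`, and so on: `p` lies in the prolongation of `F_{j+1}`
if and only if at all later steps `i → i + 1` the pivot is different from `c` and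
`y^{(i+1)}_c(p) = 0` (`MonsterPoint.LiesInProlongedFibre`), and then the critical hyperplane
is `dy^{(k)}_c = 0` (`MonsterPoint.criticalHyperplane`).
-/

set_option autoImplicit false

namespace Pool.Agent.Results.MP_32880b_ag.MultiplicityWellDefined

open Filter Topology

/-- A point of the `k`-th stage `P^k(n)` of the Monster tower over `ℂ^n`, in one of the standard
charts: `pivot j` is the pivot of the step from level `j` to level `j + 1`, and `coord j i` is the
coordinate `y^{(j)}_i` of the point. -/
structure MonsterPoint (n k : ℕ) where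
  /-- the pivots, which index the chart -/
  pivot : Fin k → Fin n
  /-- the coordinates of the point -/
  coord : Fin (k + 1) → Fin n → ℂ
  /-- `y^{(j+1)}_c = y^{(j)}_c` for the pivot `c` of the step `j → j + 1` -/
  compat : ∀ j : Fin k, coord j.succ (pivot j) = coord j.castSucc (pivot j)

/-- `p` lies in the iterated prolongation `P^{k-(j+1)}(F_{j+1})` of the fibre `F_{j+1}` of
`P^{j+1}(n) → P^j(n)` through the image of `p`. -/
def MonsterPoint.LiesInProlongedFibre {n k : ℕ} (p : MonsterPoint n k) (j : Fin k) : Prop :=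
  ∀ i : Fin k, j < i → p.pivot i ≠ p.pivot j ∧ p.coord i.succ (p.pivot j) = 0

/-- The hyperplane `dy^{(k)}_c = 0` of `Δ_k(p) = ℂ^n`, where `c` is the pivot of the step
`j → j + 1`; it is the critical hyperplane defined by the fibre `F_{j+1}` if `p` lies in its
iterated prolongation. -/
def MonsterPoint.criticalHyperplane {n k : ℕ} (p : MonsterPoint n k) (j : Fin k) :
    Set (Fin n → ℂ) :=
  {v | v (p.pivot j) = 0}

/-- The line spanned by the vector `v ≠ 0` of `Δ_k(p) = ℂ^n` is regular: it lies in no critical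
hyperplane. -/
def MonsterPoint.IsRegularDirection {n k : ℕ} (p : MonsterPoint n k) (v : Fin n → ℂ) : Prop :=
  ∀ j : Fin k, p.LiesInProlongedFibre j → v ∉ p.criticalHyperplane j

/-- A germ at `0` of a non-constant analytic curve in `ℂ^n`. -/
def IsCurveGerm {n : ℕ} (γ : ℂ → Fin n → ℂ) : Prop :=
  AnalyticAt ℂ γ 0 ∧ ¬ ∀ᶠ t in 𝓝 (0 : ℂ), γ t = γ 0

/-- The prolongation of a curve from level `j` to level `j + 1` in the chart with pivot `c`: `y`
and `z` are the coordinates `y^{(j)}` and `y^{(j+1)}` along the curves `γ^j` and `γ^{j+1}`.  The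
function `y_c` is not constant, `z_c = y_c`, and `z_i = (dy_i/dt) / (dy_c/dt)` for `i ≠ c`, which
is required to be analytic at `t = 0`. -/
def IsProlongation {n : ℕ} (c : Fin n) (y z : ℂ → Fin n → ℂ) : Prop :=
  AnalyticAt ℂ y 0 ∧ AnalyticAt ℂ z 0 ∧ (¬ ∀ᶠ t in 𝓝 (0 : ℂ), y t c = y 0 c) ∧
    (∀ᶠ t in 𝓝 (0 : ℂ), z t c = y t c) ∧
    ∀ i, i ≠ c → ∀ᶠ t in 𝓝 (0 : ℂ), deriv (fun s => y s i) t = z t i * deriv (fun s => y s c) t

/-- `y 0, ..., y k` are the coordinates `y^{(0)}, ..., y^{(k)}` along the prolongation `γ^k`, in the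
chart of `p`, and `γ^k(0) = p`. -/
def IsLift {n k : ℕ} (p : MonsterPoint n k) (γ : ℂ → Fin n → ℂ)
    (y : Fin (k + 1) → ℂ → Fin n → ℂ) : Prop :=
  y 0 = γ ∧ (∀ j : Fin k, IsProlongation (p.pivot j) (y j.castSucc) (y j.succ)) ∧
    ∀ j, y j 0 = p.coord j

/-- `Germ(p)`: the germs of non-constant analytic curves `γ` with `γ^k(0) = p` such that `γ^k` is
immersed at `0` (some coordinate has a nonzero derivative) and has a regular tangent line there. -/
def Germ {n k : ℕ} (p : MonsterPoint n k) : Set (ℂ → Fin n → ℂ) :=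
  {γ | IsCurveGerm γ ∧ ∃ y : Fin (k + 1) → ℂ → Fin n → ℂ, IsLift p γ y ∧
    (∃ j i, deriv (fun t => y j t i) 0 ≠ 0) ∧
    p.IsRegularDirection (fun i => deriv (fun t => y (Fin.last k) t i) 0)}

/-- The multiplicity of a curve germ: the least order at `t = 0` of its coordinate functions, in
coordinates centred at `γ(0)`. -/
noncomputable def mult {n : ℕ} (γ : ℂ → Fin n → ℂ) : ℕ∞ :=
  ⨅ i, analyticOrderAt (fun t => γ t i - γ 0 i) 0

/-- Sanity check (not used for the theorem): `Germ(p)` is not empty. -/
theorem germ_nonempty (n k : ℕ) (hk : 1 ≤ k) (p : MonsterPoint n k) : (Germ p).Nonempty := by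
  have hk0 : 0 < k := hk
  -- polynomial antiderivatives
  have anti : ∀ q : Polynomial ℂ, ∃ Q : Polynomial ℂ, Polynomial.derivative Q = q ∧
      Q.eval 0 = 0 := by
    intro q
    induction q using Polynomial.induction_on' with
    | add a b ha hb =>
      obtain ⟨A, hA, hA0⟩ := ha
      obtain ⟨B, hB, hB0⟩ := hb
      exact ⟨A + B, by simp [hA, hB], by simp [hA0, hB0]⟩
    | monomial m a =>
      refine ⟨Polynomial.monomial (m + 1) (a / (m + 1)), ?_, by simp⟩
      rw [Polynomial.derivative_monomial]
      have : (m : ℂ) + 1 ≠ 0 := by exact_mod_cast Nat.succ_ne_zero m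
      congr 1
      push_cast
      field_simp
  choose I hI hI0 using anti
  -- downward construction of polynomial coordinates
  have con : ∀ d : ℕ, d ≤ k → ∃ Y : ℕ → Fin n → Polynomial ℂ,
      (∀ i, Y k i = Polynomial.C (p.coord (Fin.last k) i) + Polynomial.X) ∧
      (∀ j, k - d ≤ j → (hj : j ≤ k) → ∀ i, (Y j i).eval 0 = p.coord ⟨j, by omega⟩ i ∧
        Polynomial.derivative (Y j i) ≠ 0) ∧
      (∀ j, k - d ≤ j → (hj : j < k) → Y (j + 1) (p.pivot ⟨j, hj⟩) = Y j (p.pivot ⟨j, hj⟩) ∧
        ∀ i, i ≠ p.pivot ⟨j, hj⟩ → Polynomial.derivative (Y j i) =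
          Y (j + 1) i * Polynomial.derivative (Y j (p.pivot ⟨j, hj⟩))) := by
    intro d
    induction d with
    | zero =>
      intro _
      refine ⟨fun _ i => Polynomial.C (p.coord (Fin.last k) i) + Polynomial.X, fun i => rfl,
        ?_, fun j h1 h2 => by omega⟩
      intro j h1 h2 i
      have : j = k := by omega
      subst this
      exact ⟨by simp [Fin.last], by simp⟩
    | succ d ih =>
      intro hd
      obtain ⟨Y, h1, h2, h3⟩ := ih (by omega)
      obtain ⟨j₀, hj₀⟩ : ∃ j₀, j₀ + 1 = k - d := ⟨k - d - 1, by omega⟩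
      have hjk : j₀ < k := by omega
      let c := p.pivot ⟨j₀, hjk⟩
      let Z : Fin n → Polynomial ℂ := fun i =>
        if i = c then Y (j₀ + 1) c else
          Polynomial.C (p.coord ⟨j₀, by omega⟩ i) +
            I (Y (j₀ + 1) i * Polynomial.derivative (Y (j₀ + 1) c))
      refine ⟨Function.update Y j₀ Z, ?_, ?_, ?_⟩
      · intro i
        rw [Function.update_of_ne (by omega)]
        exact h1 i
      · intro j hj1 hj2 i
        by_cases hj : j = j₀
        · subst hj
          rw [Function.update_self]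
          have h4 := h2 (j + 1) (by omega) (by omega)
          by_cases hi : i = c
          · have hZ : Z i = Y (j + 1) c := by simp [Z, hi]
            rw [hZ, hi]
            refine ⟨?_, (h4 c).2⟩
            rw [(h4 c).1]
            exact p.compat ⟨j, hjk⟩
          · have hZ : Z i = Polynomial.C (p.coord ⟨j, by omega⟩ i) +
                I (Y (j + 1) i * Polynomial.derivative (Y (j + 1) c)) := by simp [Z, hi]
            rw [hZ]
            refine ⟨by simp [hI0], ?_⟩
            rw [Polynomial.derivative_add, Polynomial.derivative_C, zero_add, hI]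
            refine mul_ne_zero ?_ (h4 c).2
            intro h0
            apply (h4 i).2
            rw [h0, Polynomial.derivative_zero]
        · rw [Function.update_of_ne hj]
          exact h2 j (by omega) hj2 i
      · intro j hj1 hj2
        by_cases hj : j = j₀
        · subst hj
          rw [Function.update_self, Function.update_of_ne (by omega)]
          have hZc : Z c = Y (j + 1) c := by simp [Z]
          refine ⟨hZc.symm, ?_⟩
          intro i hi
          have hZ : Z i = Polynomial.C (p.coord ⟨j, by omega⟩ i) +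
              I (Y (j + 1) i * Polynomial.derivative (Y (j + 1) c)) := by
            simp only [Z]; rw [if_neg hi]
          change Polynomial.derivative (Z i) = Y (j + 1) i * Polynomial.derivative (Z c)
          rw [hZ, hZc, Polynomial.derivative_add, Polynomial.derivative_C, zero_add, hI]
        · rw [Function.update_of_ne hj, Function.update_of_ne (by omega)]
          exact h3 j (by omega) hj2
  obtain ⟨Y, h1, h2, h3⟩ := con k le_rfl
  have hn : ∀ (q : Polynomial ℂ), Polynomial.derivative q ≠ 0 →
      ¬ ∀ᶠ t in 𝓝 (0 : ℂ), q.eval t = q.eval 0 := by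
    intro q hq h
    have hf : {t : ℂ | q.eval t = q.eval 0}.Infinite := by
      apply infinite_of_mem_nhds (0 : ℂ)
      exact h
    have : q = Polynomial.C (q.eval 0) := by
      apply Polynomial.eq_of_infinite_eval_eq
      simpa using hf
    apply hq
    rw [this, Polynomial.derivative_C]
  have han : ∀ j, AnalyticAt ℂ (fun (t : ℂ) i => (Y j i).eval t) 0 := by
    intro j
    rw [analyticAt_pi_iff]
    intro i
    exact (Y j i).differentiable.analyticAt 0
  let i₀ : Fin n := p.pivot ⟨0, hk0⟩
  refine ⟨fun t i => (Y 0 i).eval t, ⟨han 0, ?_⟩, fun j t i => (Y j i).eval t,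
    ⟨rfl, ?_, ?_⟩, ⟨Fin.last k, i₀, ?_⟩, ?_⟩
  · intro h
    apply hn (Y 0 i₀) (h2 0 (by omega) (by omega) i₀).2
    filter_upwards [h] with t ht
    exact congrFun ht i₀
  · intro j
    have h4 := h3 j (by omega) j.isLt
    refine ⟨han j, han (j + 1), hn _ (h2 j (by omega) (by omega) _).2, ?_, ?_⟩
    · refine Filter.Eventually.of_forall fun t => ?_
      have := h4.1
      exact congrArg (fun q => Polynomial.eval t q) this
    · intro i hi
      refine Filter.Eventually.of_forall fun t => ?_
      have h5 := h4.2 i hi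
      simp only [Polynomial.deriv]
      have h6 := congrArg (fun q => Polynomial.eval t q) h5
      rw [Polynomial.eval_mul] at h6
      exact h6
  · intro j
    funext i
    exact (h2 j (by omega) (by omega) i).1
  · simp only [Polynomial.deriv]
    have : Y (Fin.last k : Fin (k + 1)) i₀ = Y k i₀ := rfl
    rw [this, h1]
    simp
  · intro j _ hj
    change deriv (fun t => (Y (Fin.last k : Fin (k + 1)) (p.pivot j)).eval t) 0 = 0 at hj
    have : Y (Fin.last k : Fin (k + 1)) (p.pivot j) = Y k (p.pivot j) := rfl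
    rw [this, h1, Polynomial.deriv] at hj
    simp at hj

/-- **The multiplicity of a point of the Monster tower is well defined.**  For every `n`, every
`k ≥ 1` and every point `p` of `P^k(n)`, all `γ ∈ Germ(p)` have the same multiplicity. -/
theorem result (n k : ℕ) (hk : 1 ≤ k) (p : MonsterPoint n k) (γ γ' : ℂ → Fin n → ℂ)
    (hγ : γ ∈ Germ p) (hγ' : γ' ∈ Germ p) : mult γ = mult γ' := by
  obtain ⟨-, y, ⟨hy0, hyP, hyc⟩, -, hyr⟩ := hγ
  obtain ⟨-, z, ⟨hz0, hzP, hzc⟩, -, hzr⟩ := hγ'
  -- indexing by natural numbers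
  let lv : ℕ → Fin (k + 1) := fun j => ⟨min j k, by omega⟩
  let st : ℕ → Fin k := fun j => ⟨min j (k - 1), by omega⟩
  have hcs : ∀ j, j < k → lv j = (st j).castSucc := by
    intro j hj; ext; simp [lv, st]; omega
  have hsc : ∀ j, j < k → lv (j + 1) = (st j).succ := by
    intro j hj; ext; simp [lv, st]; omega
  have hst : ∀ j (h : j < k), st j = ⟨j, h⟩ := by
    intro j hj; ext; simp [st]; omega
  have hlast : lv k = Fin.last k := by ext; simp [lv]
  have aY : ∀ j ≤ k, AnalyticAt ℂ (y (lv j)) 0 := by
    intro j hj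
    rcases hj.lt_or_eq with h | h
    · rw [hcs j h]; exact (hyP (st j)).1
    · obtain ⟨i, rfl⟩ : ∃ i, j = i + 1 := ⟨j - 1, by omega⟩
      rw [hsc i (by omega)]; exact (hyP (st i)).2.1
  have aZ : ∀ j ≤ k, AnalyticAt ℂ (z (lv j)) 0 := by
    intro j hj
    rcases hj.lt_or_eq with h | h
    · rw [hcs j h]; exact (hzP (st j)).1
    · obtain ⟨i, rfl⟩ : ∃ i, j = i + 1 := ⟨j - 1, by omega⟩
      rw [hsc i (by omega)]; exact (hzP (st i)).2.1
  have comp : ∀ {f : ℂ → Fin n → ℂ}, AnalyticAt ℂ f 0 → ∀ i, AnalyticAt ℂ (fun t => f t i) 0 := by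
    intro f hf i
    exact (analyticAt_pi_iff.1 hf) i
  have reg : ∀ (w : Fin (k + 1) → ℂ → Fin n → ℂ),
      p.IsRegularDirection (fun i => deriv (fun t => w (Fin.last k) t i) 0) →
      ∀ j < k, (∀ i < k, j < i → p.pivot (st i) ≠ p.pivot (st j) ∧
        p.coord (lv (i + 1)) (p.pivot (st j)) = 0) →
      deriv (fun t => w (lv k) t (p.pivot (st j))) 0 ≠ 0 := by
    intro w hw j hj hact
    have h1 : p.LiesInProlongedFibre (st j) := by
      intro i hi
      have hi' : j < (i : ℕ) := by
        have : (st j : ℕ) < i := hi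
        rw [hst j hj] at this
        exact this
      have h2 := hact i i.isLt hi'
      have h3 : st (i : ℕ) = i := by rw [hst i i.isLt]
      rw [hsc i i.isLt, h3] at h2
      exact h2
    have h2 := hw (st j) h1
    rw [hlast]
    exact h2
  have key := Q43.MT.main (n := n) (k := k) (fun j => p.pivot (st j)) (fun j => p.coord (lv j))
    (fun j i t => y (lv j) t i) (fun j i t => z (lv j) t i)
    (fun j hj i => comp (aY j hj) i) (fun j hj i => comp (aZ j hj) i)
    (fun j _ i => by rw [hyc]) (fun j _ i => by rw [hzc])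
    (fun j hj => by
      have := (hyP (st j)).2.2.1
      rw [← hcs j hj] at this; exact this)
    (fun j hj => by
      have := (hzP (st j)).2.2.1
      rw [← hcs j hj] at this; exact this)
    (fun j hj => by
      have := (hyP (st j)).2.2.2.1
      rw [← hcs j hj, ← hsc j hj] at this; exact this)
    (fun j hj => by
      have := (hzP (st j)).2.2.2.1
      rw [← hcs j hj, ← hsc j hj] at this; exact this)
    (fun j hj i hi => by
      have := (hyP (st j)).2.2.2.2 i hi
      rw [← hcs j hj, ← hsc j hj] at this; exact this)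
    (fun j hj i hi => by
      have := (hzP (st j)).2.2.2.2 i hi
      rw [← hcs j hj, ← hsc j hj] at this; exact this)
    (fun j hj h => reg y hyr j hj h) (fun j hj h => reg z hzr j hj h) 0 (by omega)
  have hm : ∀ (w : Fin (k + 1) → ℂ → Fin n → ℂ) (δ : ℂ → Fin n → ℂ), w 0 = δ →
      (∀ j : Fin k, IsProlongation (p.pivot j) (w j.castSucc) (w j.succ)) →
      mult δ = Q43.MT.ord0 (fun t => w (lv 0) t (p.pivot (st 0))) := by
    intro w δ hw hP
    have h0 := hP (st 0)
    have e1 : (st 0).castSucc = 0 := by ext; simp [st]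
    have e2 : lv 0 = 0 := by ext; simp [lv]
    rw [e1] at h0
    rw [e2, ← hw]
    exact Q43.MT.iInf_eq (p.pivot (st 0)) (fun i t => w 0 t i) (fun i t => w (st 0).succ t i)
      (fun i => comp h0.1 i) (fun i => comp h0.2.1 i) (fun i hi => h0.2.2.2.2 i hi)
  rw [hm y γ hy0 hyP, hm z γ' hz0 hzP]
  exact key

end Pool.Agent.Results.MP_32880b_ag.MultiplicityWellDefined
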